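import Pool.Agent.Helper3_DE.ChartY

/-!
# The charts of the blow-up are locally of finite global dimension
-/

set_option autoImplicit false

open Pool.Agent.H66DE Polynomial

namespace Pool.Agent.H3DE

theorem finGl_away_of_equiv (hE : FinGlEquivStatement) {A B : Type} [CommRing A] [CommRing B]
    (e : A ≃+* B) (a : A) (h : FinGl (Localization.Away a)) : FinGl (Localization.Away (e a)) := by
  refine hE (Localization.Away a) (Localization.Away (e a)) ?_ h
  refine IsLocalization.ringEquivOfRingEquiv (M := Submonoid.powers a)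
    (T := Submonoid.powers (e a)) _ _ e ?_
  rw [Submonoid.map_powers]
  rfl

/-- localizations at one element -/
theorem finGl_away_of_isLocalization (hE : FinGlEquivStatement) {A B : Type} [CommRing A]
    [CommRing B] [Algebra A B] (a : A) [IsLocalization.Away a B] (h : FinGl B) :
    FinGl (Localization.Away a) :=
  hE B (Localization.Away a)
    (IsLocalization.algEquiv (Submonoid.powers a) B (Localization.Away a)).toRingEquiv h

theorem finGl_T (hEt : FinGlEtaleStatement) (hP : FinGlPolyStatement) :
    FinGl (Localization.Away bT) := by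
  refine hEt S fB fB_monic hP (Localization.Away bT) (Submonoid.powers bT) ?_
  have h1 : AdjoinRoot.mk fB (derivative fB) = AdjoinRoot.of fB (MvPolynomial.C 3) * bT ^ 2 := by
    rw [show derivative fB = C ((3 : ℕ) : S) * X ^ 2 by
      rw [derivative_add, derivative_C, add_zero, derivative_X_pow]]
    rw [map_mul, map_pow, AdjoinRoot.mk_X]
    have : (C ((3 : ℕ) : S) : S[X]) = C (MvPolynomial.C (3 : ℂ)) := by
      congr 1
    rw [this, AdjoinRoot.mk_C]
    rfl
  rw [h1, map_mul, map_pow]
  refine IsUnit.mul ?_ ((IsLocalization.Away.algebraMap_isUnit bT).pow 2)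
  have h2 : IsUnit (MvPolynomial.C (3 : ℂ) : S) :=
    (isUnit_iff_ne_zero.mpr (by norm_num : (3 : ℂ) ≠ 0)).map (MvPolynomial.C)
  exact (h2.map (AdjoinRoot.of fB)).map (algebraMap BB (Localization.Away bT))

/-- exchanging `Z` and `T` -/
noncomputable def swp : BB →+* BB := AdjoinRoot.lift
  (MvPolynomial.aeval (R := ℂ) ![bX, bY, bT]).toRingHom bZ (by
    rw [eval₂_add, eval₂_pow, eval₂_X, eval₂_C, cB]
    have h := rel_BB
    simp
    linear_combination h)

theorem swp_X : swp bX = bX := (AdjoinRoot.lift_of _).trans (by simp)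
theorem swp_Y : swp bY = bY := (AdjoinRoot.lift_of _).trans (by simp)
theorem swp_Z : swp bZ = bT := (AdjoinRoot.lift_of _).trans (by simp)
theorem swp_T : swp bT = bZ := AdjoinRoot.lift_root _
theorem swp_C (c : ℂ) : swp (algebraMap ℂ BB c) = algebraMap ℂ BB c :=
  (AdjoinRoot.lift_of _).trans (by
    change (MvPolynomial.aeval (R := ℂ) ![bX, bY, bT]) (MvPolynomial.C c) = _
    rw [MvPolynomial.aeval_C])

theorem swp_swp : swp.comp swp = RingHom.id BB := by
  refine BB_hom_ext ?_ ?_ ?_ ?_ ?_
  · rw [RingHom.comp_apply, swp_X, swp_X]; rfl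
  · rw [RingHom.comp_apply, swp_Y, swp_Y]; rfl
  · rw [RingHom.comp_apply, swp_Z, swp_T]; rfl
  · rw [RingHom.comp_apply, swp_T, swp_Z]; rfl
  · intro c
    rw [RingHom.comp_apply, swp_C, swp_C]; rfl

/-- exchanging `Z` and `T` -/
noncomputable def swpE : BB ≃+* BB := RingEquiv.ofRingHom swp swp swp_swp swp_swp

theorem finGl_Z (hE : FinGlEquivStatement) (hEt : FinGlEtaleStatement) (hP : FinGlPolyStatement) :
    FinGl (Localization.Away bZ) := by
  have h := finGl_away_of_equiv hE swpE bT (finGl_T hEt hP)
  have h2 : swpE bT = bZ := swp_T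
  rwa [h2] at h

theorem finGl_LB (hEt : FinGlEtaleStatement) (hP : FinGlPolyStatement) : FinGl LB := by
  let e : AdjoinRoot (X : S[X]) →+* S := AdjoinRoot.lift (RingHom.id S) 0 (by simp)
  have he : Function.Bijective e := by
    constructor
    · rw [injective_iff_map_eq_zero]
      intro a ha
      obtain ⟨q, rfl⟩ := AdjoinRoot.mk_surjective a
      rw [AdjoinRoot.lift_mk] at ha
      rw [AdjoinRoot.mk_eq_zero, X_dvd_iff, coeff_zero_eq_eval_zero]
      exact ha
    · intro s
      exact ⟨AdjoinRoot.of _ s, AdjoinRoot.lift_of _⟩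
  let E : AdjoinRoot (X : S[X]) ≃+* S := RingEquiv.ofBijective e he
  letI : Algebra (AdjoinRoot (X : S[X])) LB := ((algebraMap S LB).comp E.toRingHom).toAlgebra
  have hloc : IsLocalization (Submonoid.map E.symm.toMonoidHom
      (Submonoid.powers (MvPolynomial.X 0 : S))) LB := by
    refine (isLocalization_iff _ _).mpr ⟨?_, ?_, ?_⟩
    · rintro ⟨_, _, ⟨n, rfl⟩, rfl⟩
      change IsUnit (algebraMap S LB (E (E.symm (MvPolynomial.X 0 ^ n))))
      rw [RingEquiv.apply_symm_apply, map_pow]
      exact (IsLocalization.Away.algebraMap_isUnit (MvPolynomial.X 0 : S)).pow n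
    · intro z
      obtain ⟨⟨b, ⟨_, n, rfl⟩⟩, hb⟩ :=
        IsLocalization.surj (Submonoid.powers (MvPolynomial.X 0 : S)) z
      refine ⟨⟨E.symm b, ⟨E.symm (MvPolynomial.X 0 ^ n), MvPolynomial.X 0 ^ n, ⟨n, rfl⟩, rfl⟩⟩, ?_⟩
      change z * algebraMap S LB (E (E.symm (MvPolynomial.X 0 ^ n))) =
        algebraMap S LB (E (E.symm b))
      rw [RingEquiv.apply_symm_apply, RingEquiv.apply_symm_apply]
      exact hb
    · intro a b hab
      refine ⟨1, ?_⟩
      have h1 : E a = E b := by
        have h0 : (MvPolynomial.X 0 : S) ≠ 0 := MvPolynomial.X_ne_zero 0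
        exact IsLocalization.injective (M := Submonoid.powers (MvPolynomial.X 0 : S)) LB
          (powers_le_nonZeroDivisors_of_noZeroDivisors h0) hab
      rw [E.injective h1]
  refine hEt S X monic_X hP LB (Submonoid.map E.symm.toMonoidHom
      (Submonoid.powers (MvPolynomial.X 0 : S))) ?_
  rw [derivative_X, map_one, map_one]
  exact isUnit_one

theorem finGl_X (hE : FinGlEquivStatement) (hEt : FinGlEtaleStatement) (hP : FinGlPolyStatement) :
    FinGl (Localization.Away bX) := by
  letI := chiB.toAlgebra
  haveI : IsLocalization.Away bX LB := isLocalization_chiB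
  exact finGl_away_of_isLocalization hE bX (finGl_LB hEt hP)

theorem chartGl (hX : ChartXStatement) (hE : FinGlEquivStatement) (hEt : FinGlEtaleStatement)
    (hP : FinGlPolyStatement) : ChartGlStatement := by
  intro K _ _ _ _ _ i
  classical
  haveI := isDomain_R0
  haveI : FaithfulSMul R0 K := (faithfulSMul_iff_algebraMap_injective R0 K).mpr
    (IsFractionRing.injective R0 K)
  rcases i with _ | j
  · obtain ⟨e⟩ := chart_none_equiv K hX
    refine ⟨{1}, ?_, ?_⟩
    · rw [Finset.coe_singleton, Ideal.span_singleton_one]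
    · intro h hh
      rw [Finset.mem_singleton] at hh
      rw [hh]
      refine hE (chart K none) _ ?_ (hE S _ e hP)
      exact (IsLocalization.atUnits (chart K none) (Submonoid.powers (1 : chart K none))
        (S := Localization.Away (1 : chart K none)) (by
          rintro _ ⟨n, rfl⟩
          simp)).toRingEquiv
  · obtain ⟨e⟩ := chart_some_equiv K j
    refine ⟨{e bX, e bZ, e bT}, ?_, ?_⟩
    · rw [Ideal.eq_top_iff_one]
      set I := Ideal.span ((({e bX, e bZ, e bT} : Finset (chart K (some j))) :
        Set (chart K (some j))))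
      have h1 : e bX ∈ I := Ideal.subset_span (by simp)
      have h2 : e bZ ∈ I := Ideal.subset_span (by simp)
      have h3 : e bT ∈ I := Ideal.subset_span (by simp)
      have h4 := congrArg e rel_BB
      simp only [map_add, map_mul, map_pow, map_one, map_zero] at h4
      have h5 : (1 : chart K (some j)) = (-(e bX ^ 3 * e bY)) * e bX + (-(e bZ ^ 2)) * e bZ +
          (-(e bT ^ 2)) * e bT := by linear_combination h4
      rw [h5]
      exact I.add_mem (I.add_mem (I.mul_mem_left _ h1) (I.mul_mem_left _ h2)) (I.mul_mem_left _ h3)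
    · intro h hh
      simp only [Finset.mem_insert, Finset.mem_singleton] at hh
      rcases hh with rfl | rfl | rfl
      · exact finGl_away_of_equiv hE e bX (finGl_X hE hEt hP)
      · exact finGl_away_of_equiv hE e bZ (finGl_Z hE hEt hP)
      · exact finGl_away_of_equiv hE e bT (finGl_T hEt hP)

/-- CHU without hypotheses -/
theorem chartUFD' : ChartUFDStatement := chartUFD chartX

/-- CHG without hypotheses -/
theorem chartGl' : ChartGlStatement := chartGl chartX finGlEquiv finGlEtale finGlPoly

end Pool.Agent.H3DE
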