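import Pool.Agent.Helper3_DE.RBasic
import Pool.Agent.Helper92_DE.Forms
import Pool.Agent.Helper95_DE.GlEtale

/-!
# The charts of the blow-up are factorial, and locally of finite global dimension
-/

set_option autoImplicit false

open Pool.Agent.H66DE Polynomial

namespace Pool.Agent.H3DE

/-! ### The model `ℂ[X,Y,Z][T]/(T³+Z³+1+X⁴Y)` -/

/-- `Z³ + 1 + X⁴Y` -/
noncomputable def cB : S := MvPolynomial.X 2 ^ 3 + 1 + MvPolynomial.X 0 ^ 4 * MvPolynomial.X 1

/-- the polynomial `T³ + Z³ + 1 + X⁴Y` -/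
noncomputable abbrev fB : S[X] := X ^ 3 + C cB

/-- the coordinate ring of the chart -/
abbrev BB := AdjoinRoot fB

/-- the class of `X` -/
noncomputable def bX : BB := AdjoinRoot.of fB (MvPolynomial.X 0)
/-- the class of `Y` -/
noncomputable def bY : BB := AdjoinRoot.of fB (MvPolynomial.X 1)
/-- the class of `Z` -/
noncomputable def bZ : BB := AdjoinRoot.of fB (MvPolynomial.X 2)
/-- the class of `T` -/
noncomputable def bT : BB := AdjoinRoot.root fB

theorem fB_monic : fB.Monic := monic_X_pow_add_C cB (by norm_num)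

theorem fB_irreducible : Irreducible fB := by
  let ψ : S →+* ℂ[X] := (MvPolynomial.aeval (R := ℂ) ![(1 : ℂ[X]), -1 - X ^ 3, X]).toRingHom
  refine irreducible_cubic ψ (MvPolynomial.pderiv 1) _ ?_ ?_
  · simp [ψ, cB]
    ring
  · simp [ψ, cB, MvPolynomial.pderiv_X]

theorem isDomain_BB : IsDomain BB := AdjoinRoot.isDomain_of_prime fB_irreducible.prime

theorem isNoetherian_BB : IsNoetherianRing BB :=
  isNoetherianRing_of_surjective _ _ (AdjoinRoot.mk fB) AdjoinRoot.mk_surjective

theorem rel_BB : bT ^ 3 + (bZ ^ 3 + 1 + bX ^ 4 * bY) = 0 := by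
  have h1 : AdjoinRoot.mk fB fB = 0 := AdjoinRoot.mk_self
  have h2 : AdjoinRoot.mk fB fB = bT ^ 3 + (bZ ^ 3 + 1 + bX ^ 4 * bY) := by
    have : AdjoinRoot.mk fB fB = bT ^ 3 + AdjoinRoot.of fB cB := by
      rw [map_add, map_pow, AdjoinRoot.mk_X, AdjoinRoot.mk_C]
      rfl
    rw [this, cB]
    simp only [map_add, map_mul, map_pow, map_one]
    rfl
  rw [← h2, h1]

/-- ring homomorphisms from the model are determined on generators -/
theorem BB_hom_ext {T : Type*} [CommRing T] {f g : BB →+* T} (hX : f bX = g bX) (hY : f bY = g bY)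
    (hZ : f bZ = g bZ) (hT : f bT = g bT)
    (hc : ∀ c : ℂ, f (algebraMap ℂ BB c) = g (algebraMap ℂ BB c)) : f = g := by
  refine RingHom.ext fun r => ?_
  obtain ⟨q, rfl⟩ := AdjoinRoot.mk_surjective r
  have h1 : f.comp (AdjoinRoot.mk fB) = g.comp (AdjoinRoot.mk fB) := by
    refine Polynomial.ringHom_ext' ?_ ?_
    · refine MvPolynomial.ringHom_ext' ?_ ?_
      · ext c
        exact hc c
      · intro j
        fin_cases j
        · exact hX
        · exact hY
        · exact hZ
    · simp only [RingHom.comp_apply, AdjoinRoot.mk_X]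
      exact hT
  exact congrArg (fun φ : S[X] →+* T => φ q) h1

/-- induction on the model -/
theorem BB_induction {M : BB → Prop} (hc : ∀ c : ℂ, M (algebraMap ℂ BB c))
    (hadd : ∀ a b, M a → M b → M (a + b)) (hX : ∀ a, M a → M (a * bX)) (hY : ∀ a, M a → M (a * bY))
    (hZ : ∀ a, M a → M (a * bZ)) (hT : ∀ a, M a → M (a * bT)) (b : BB) : M b := by
  have hS : ∀ s : S, M (AdjoinRoot.of fB s) := by
    intro s
    induction s using MvPolynomial.induction_on with
    | C a => exact hc a
    | add p q hp hq => rw [map_add]; exact hadd _ _ hp hq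
    | mul_X p j hp =>
      rw [map_mul]
      fin_cases j
      · exact hX _ hp
      · exact hY _ hp
      · exact hZ _ hp
  induction b using AdjoinRoot.induction_on with
  | ih p =>
    induction p using Polynomial.induction_on with
    | C a => exact hS a
    | add p q hp hq => rw [map_add]; exact hadd _ _ hp hq
    | monomial n a h =>
      rw [pow_succ, ← mul_assoc, map_mul]
      exact hT _ h

/-! ### `X` is prime -/

/-- `X 0 ↦ 0` -/
noncomputable def th0 : S →+* D2 :=
  (Polynomial.constantCoeff).comp (MvPolynomial.finSuccEquiv ℂ 2).toRingEquiv.toRingHom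

theorem th0_apply (s : S) : th0 s = (MvPolynomial.finSuccEquiv ℂ 2 s).coeff 0 := rfl

theorem th0_X0 : th0 (MvPolynomial.X 0) = 0 := by
  rw [th0_apply, MvPolynomial.finSuccEquiv_X_zero, coeff_X_zero]

theorem th0_X1 : th0 (MvPolynomial.X 1) = MvPolynomial.X 0 := by
  rw [th0_apply, show MvPolynomial.finSuccEquiv ℂ 2 (MvPolynomial.X 1) = C (MvPolynomial.X 0) from
    MvPolynomial.finSuccEquiv_X_succ (j := 0), coeff_C_zero]

theorem th0_X2 : th0 (MvPolynomial.X 2) = MvPolynomial.X 1 := by
  rw [th0_apply, show MvPolynomial.finSuccEquiv ℂ 2 (MvPolynomial.X 2) = C (MvPolynomial.X 1) from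
    MvPolynomial.finSuccEquiv_X_succ (j := 1), coeff_C_zero]

theorem th0_surjective : Function.Surjective th0 := by
  intro d
  refine ⟨(MvPolynomial.finSuccEquiv ℂ 2).symm (C d), ?_⟩
  rw [th0_apply, AlgEquiv.apply_symm_apply, coeff_C_zero]

theorem X0_dvd {s : S} (h : th0 s = 0) : (MvPolynomial.X 0 : S) ∣ s := by
  rw [th0_apply, ← X_dvd_iff] at h
  have h2 := map_dvd (MvPolynomial.finSuccEquiv ℂ 2).symm h
  rw [AlgEquiv.symm_apply_apply, ← MvPolynomial.finSuccEquiv_X_zero (R := ℂ) (n := 2),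
    AlgEquiv.symm_apply_apply] at h2
  exact h2

/-- the polynomial of the special fibre -/
noncomputable abbrev fD : D2[X] := X ^ 3 + C (MvPolynomial.X 1 ^ 3 + 1)

theorem th0_cB : th0 cB = MvPolynomial.X 1 ^ 3 + 1 := by
  rw [cB]
  simp only [map_add, map_mul, map_pow, map_one, th0_X0, th0_X1, th0_X2]
  ring

theorem fD_irreducible : Irreducible fD := by
  let ψ : D2 →+* ℂ := (MvPolynomial.aeval (R := ℂ) ![(0 : ℂ), -1]).toRingHom
  refine irreducible_cubic ψ (MvPolynomial.pderiv 1) _ ?_ ?_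
  · simp [ψ]
    norm_num
  · simp [ψ, MvPolynomial.pderiv_X]

theorem map_fB : fB.map th0 = fD := by
  rw [fB, Polynomial.map_add, Polynomial.map_pow, Polynomial.map_X, Polynomial.map_C, th0_cB]

theorem bX_ne_zero : bX ≠ 0 := by
  intro h
  have h1 : AdjoinRoot.mk fB (C (MvPolynomial.X 0)) = 0 := by rw [AdjoinRoot.mk_C]; exact h
  rw [AdjoinRoot.mk_eq_zero] at h1
  have h2 := Polynomial.degree_le_of_dvd h1 (C_ne_zero.mpr (MvPolynomial.X_ne_zero 0))
  rw [degree_C (MvPolynomial.X_ne_zero 0),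
    show fB.degree = 3 from degree_X_pow_add_C (by norm_num) cB] at h2
  norm_num at h2

theorem bY_ne_zero : bY ≠ 0 := by
  intro h
  have h1 : AdjoinRoot.mk fB (C (MvPolynomial.X 1)) = 0 := by rw [AdjoinRoot.mk_C]; exact h
  rw [AdjoinRoot.mk_eq_zero] at h1
  have h2 := Polynomial.degree_le_of_dvd h1 (C_ne_zero.mpr (MvPolynomial.X_ne_zero 1))
  rw [degree_C (MvPolynomial.X_ne_zero 1),
    show fB.degree = 3 from degree_X_pow_add_C (by norm_num) cB] at h2
  norm_num at h2

theorem bX_prime : Prime bX := by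
  have hd : IsDomain (AdjoinRoot fD) := AdjoinRoot.isDomain_of_prime fD_irreducible.prime
  have hmk : ∀ q : S[X], q.eval₂ ((AdjoinRoot.of fD).comp th0) (AdjoinRoot.root fD) =
      AdjoinRoot.mk fD (q.map th0) := by
    intro q
    rw [← AdjoinRoot.aeval_eq, aeval_def, eval₂_map]
    rfl
  let θ : BB →+* AdjoinRoot fD := AdjoinRoot.lift ((AdjoinRoot.of fD).comp th0)
    (AdjoinRoot.root fD) (by rw [hmk, map_fB, AdjoinRoot.mk_self])
  refine prime_of_ker θ bX_ne_zero ?_ ?_
  · change θ (AdjoinRoot.of fB _) = 0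
    rw [AdjoinRoot.lift_of, RingHom.comp_apply, th0_X0, map_zero]
  · intro r hr
    obtain ⟨q, rfl⟩ := AdjoinRoot.mk_surjective r
    rw [AdjoinRoot.lift_mk, hmk, AdjoinRoot.mk_eq_zero] at hr
    obtain ⟨h', hh'⟩ := hr
    obtain ⟨h, rfl⟩ := Polynomial.map_surjective th0 th0_surjective h'
    have h1 : (q - fB * h).map th0 = 0 := by
      rw [Polynomial.map_sub, Polynomial.map_mul, map_fB, hh', sub_self]
    have h2 : C (MvPolynomial.X 0 : S) ∣ q - fB * h := by
      rw [C_dvd_iff_dvd_coeff]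
      intro n
      refine X0_dvd ?_
      rw [← Polynomial.coeff_map, h1, coeff_zero]
    have h3 := map_dvd (AdjoinRoot.mk fB) h2
    rw [map_sub, map_mul, AdjoinRoot.mk_self, zero_mul, sub_zero, AdjoinRoot.mk_C] at h3
    exact h3

/-! ### the localization at `X` -/

/-- the localization `ℂ[X,Z,T][1/X]` -/
abbrev LB := Localization.Away (MvPolynomial.X 0 : S)

theorem uB : algebraMap S LB (MvPolynomial.X 0) *
    IsLocalization.Away.invSelf (S := LB) (MvPolynomial.X 0 : S) = 1 :=
  IsLocalization.Away.mul_invSelf _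

/-- `X ↦ X`, `Y ↦ -(1+Z³+T³)/X⁴`, `Z ↦ Z` -/
noncomputable def iB : S →+* LB := (MvPolynomial.aeval (R := ℂ)
  ![algebraMap S LB (MvPolynomial.X 0),
    -(1 + algebraMap S LB (MvPolynomial.X 1) ^ 3 + algebraMap S LB (MvPolynomial.X 2) ^ 3) *
      IsLocalization.Away.invSelf (S := LB) (MvPolynomial.X 0 : S) ^ 4,
    algebraMap S LB (MvPolynomial.X 1)]).toRingHom

theorem iB_X0 : iB (MvPolynomial.X 0) = algebraMap S LB (MvPolynomial.X 0) := by simp [iB]
theorem iB_X1 : iB (MvPolynomial.X 1) =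
    -(1 + algebraMap S LB (MvPolynomial.X 1) ^ 3 + algebraMap S LB (MvPolynomial.X 2) ^ 3) *
      IsLocalization.Away.invSelf (S := LB) (MvPolynomial.X 0 : S) ^ 4 := by simp [iB]
theorem iB_X2 : iB (MvPolynomial.X 2) = algebraMap S LB (MvPolynomial.X 1) := by simp [iB]
theorem iB_C (c : ℂ) : iB (MvPolynomial.C c) = algebraMap S LB (MvPolynomial.C c) := by
  simp only [iB, AlgHom.toRingHom_eq_coe, RingHom.coe_coe, MvPolynomial.aeval_C]
  rfl

/-- the map to the localization -/
noncomputable def chiB : BB →+* LB := AdjoinRoot.lift iB (algebraMap S LB (MvPolynomial.X 2)) (by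
  rw [fB, eval₂_add, eval₂_pow, eval₂_X, eval₂_C, cB]
  simp only [map_add, map_mul, map_pow, map_one, iB_X0, iB_X1, iB_X2]
  have h := uB
  set x := algebraMap S LB (MvPolynomial.X 0)
  set u := IsLocalization.Away.invSelf (S := LB) (MvPolynomial.X 0 : S)
  set z := algebraMap S LB (MvPolynomial.X 1)
  set t := algebraMap S LB (MvPolynomial.X 2)
  calc t ^ 3 + (z ^ 3 + 1 + x ^ 4 * (-(1 + z ^ 3 + t ^ 3) * u ^ 4))
      = (t ^ 3 + z ^ 3 + 1) * (1 - (x * u) ^ 4) := by ring
    _ = 0 := by rw [h]; ring)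

theorem chiB_X : chiB bX = algebraMap S LB (MvPolynomial.X 0) := by
  rw [← iB_X0]; exact AdjoinRoot.lift_of _
theorem chiB_Y : chiB bY =
    -(1 + algebraMap S LB (MvPolynomial.X 1) ^ 3 + algebraMap S LB (MvPolynomial.X 2) ^ 3) *
      IsLocalization.Away.invSelf (S := LB) (MvPolynomial.X 0 : S) ^ 4 := by
  rw [← iB_X1]; exact AdjoinRoot.lift_of _
theorem chiB_Z : chiB bZ = algebraMap S LB (MvPolynomial.X 1) := by
  rw [← iB_X2]; exact AdjoinRoot.lift_of _
theorem chiB_T : chiB bT = algebraMap S LB (MvPolynomial.X 2) := AdjoinRoot.lift_root _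
theorem chiB_C (c : ℂ) : chiB (algebraMap ℂ BB c) = algebraMap S LB (MvPolynomial.C c) := by
  rw [← iB_C]; exact AdjoinRoot.lift_of _

/-- the localization of the model at `X` -/
abbrev LxB := Localization.Away bX

theorem algebraMap_LxB_injective : Function.Injective (algebraMap BB LxB) := by
  haveI := isDomain_BB
  exact IsLocalization.injective LxB (powers_le_nonZeroDivisors_of_noZeroDivisors bX_ne_zero)

/-- `X, Z, T` -/
noncomputable def sigB : S →+* BB := (MvPolynomial.aeval (R := ℂ) ![bX, bZ, bT]).toRingHom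

theorem sigB_X0 : sigB (MvPolynomial.X 0) = bX := by simp [sigB]
theorem sigB_X1 : sigB (MvPolynomial.X 1) = bZ := by simp [sigB]
theorem sigB_X2 : sigB (MvPolynomial.X 2) = bT := by simp [sigB]
theorem sigB_C (c : ℂ) : sigB (MvPolynomial.C c) = algebraMap ℂ BB c := by
  simp only [sigB, AlgHom.toRingHom_eq_coe, RingHom.coe_coe, MvPolynomial.aeval_C]

theorem chiB_sigB (s : S) : chiB (sigB s) = algebraMap S LB s := by
  have h : chiB.comp sigB = algebraMap S LB := by
    refine MvPolynomial.ringHom_ext' ?_ ?_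
    · ext c
      change chiB (sigB (MvPolynomial.C c)) = _
      rw [sigB_C, chiB_C]
      rfl
    · intro j
      fin_cases j
      · change chiB (sigB (MvPolynomial.X 0)) = algebraMap S LB (MvPolynomial.X 0)
        rw [sigB_X0, chiB_X]
      · change chiB (sigB (MvPolynomial.X 1)) = algebraMap S LB (MvPolynomial.X 1)
        rw [sigB_X1, chiB_Z]
      · change chiB (sigB (MvPolynomial.X 2)) = algebraMap S LB (MvPolynomial.X 2)
        rw [sigB_X2, chiB_T]
  exact congrArg (fun φ : S →+* LB => φ s) h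

/-- the inverse direction -/
noncomputable def rhoB : LB →+* LxB :=
  IsLocalization.Away.lift (MvPolynomial.X 0 : S) (g := (algebraMap BB LxB).comp sigB) (by
    rw [RingHom.comp_apply, sigB_X0]
    exact IsLocalization.Away.algebraMap_isUnit bX)

theorem rhoB_algebraMap (s : S) : rhoB (algebraMap S LB s) = algebraMap BB LxB (sigB s) :=
  IsLocalization.Away.lift_eq _ _ _

theorem chiB_injective : Function.Injective chiB := by
  have h1 : rhoB.comp chiB = algebraMap BB LxB := by
    refine BB_hom_ext ?_ ?_ ?_ ?_ ?_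
    · rw [RingHom.comp_apply, chiB_X, rhoB_algebraMap, sigB_X0]
    · rw [RingHom.comp_apply, chiB_Y, map_mul, map_neg, map_add, map_add, map_one, map_pow, map_pow,
        map_pow, rhoB_algebraMap, rhoB_algebraMap, sigB_X1, sigB_X2]
      have h2 := congrArg rhoB uB
      rw [map_mul, map_one, rhoB_algebraMap, sigB_X0] at h2
      have h3 := congrArg (algebraMap BB LxB) rel_BB
      simp only [map_add, map_mul, map_pow, map_one, map_zero] at h3
      set w := rhoB (IsLocalization.Away.invSelf (S := LB) (MvPolynomial.X 0 : S))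
      set x := algebraMap BB LxB bX
      set y := algebraMap BB LxB bY
      set z := algebraMap BB LxB bZ
      set t := algebraMap BB LxB bT
      calc -(1 + z ^ 3 + t ^ 3) * w ^ 4
          = y * (x * w) ^ 4 - (t ^ 3 + (z ^ 3 + 1 + x ^ 4 * y)) * w ^ 4 := by ring
        _ = y := by rw [h2, h3]; ring
    · rw [RingHom.comp_apply, chiB_Z, rhoB_algebraMap, sigB_X1]
    · rw [RingHom.comp_apply, chiB_T, rhoB_algebraMap, sigB_X2]
    · intro c
      rw [RingHom.comp_apply, chiB_C, rhoB_algebraMap, sigB_C]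
  have h2 := algebraMap_LxB_injective
  rw [← h1, RingHom.coe_comp] at h2
  exact Function.Injective.of_comp h2

theorem isLocalization_chiB : letI := chiB.toAlgebra; IsLocalization.Away bX LB := by
  letI := chiB.toAlgebra
  refine (isLocalization_iff _ _).mpr ⟨?_, ?_, ?_⟩
  · rintro ⟨_, n, rfl⟩
    change IsUnit (chiB (bX ^ n))
    rw [map_pow, chiB_X]
    exact (IsLocalization.Away.algebraMap_isUnit (MvPolynomial.X 0 : S)).pow n
  · intro z
    obtain ⟨⟨b, ⟨_, n, rfl⟩⟩, hb⟩ :=
      IsLocalization.surj (Submonoid.powers (MvPolynomial.X 0 : S)) z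
    refine ⟨⟨sigB b, ⟨bX ^ n, n, rfl⟩⟩, ?_⟩
    change z * chiB (bX ^ n) = chiB (sigB b)
    simp only [map_pow] at hb
    rw [map_pow, chiB_X, chiB_sigB, ← hb]
  · intro a b hab
    exact ⟨1, by rw [chiB_injective hab]⟩

theorem ufd_BB : UniqueFactorizationMonoid BB := by
  haveI := isDomain_BB
  haveI := isNoetherian_BB
  letI := chiB.toAlgebra
  haveI : IsLocalization.Away bX LB := isLocalization_chiB
  rw [UniqueFactorizationMonoid.iff_of_isLocalizationAway_of_prime bX_prime LB]
  infer_instance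

/-! ### Identification of the charts -/

section

variable (K : Type) [Field K] [Algebra R0 K] [IsFractionRing R0 K] [Algebra ℂ K]
    [IsScalarTower ℂ R0 K]

theorem chart_none_equiv (hX : ChartXStatement) : Nonempty (S ≃+* chart K none) := by
  obtain ⟨hinj, hr⟩ := hX K
  let f : S →+* K := (MvPolynomial.aeval (R := ℂ)
      (fun j : Fin 3 => algebraMap R0 K (yR j) / algebraMap R0 K xR)).toRingHom
  have hf : ∀ s, f s ∈ chart K none := fun s => (hr _).mpr ⟨s, rfl⟩
  refine ⟨RingEquiv.ofBijective (f.codRestrict _ hf) ⟨?_, ?_⟩⟩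
  · intro a b hab
    exact hinj (congrArg Subtype.val hab)
  · rintro ⟨z, hz⟩
    obtain ⟨s, hs⟩ := (hr z).mp hz
    exact ⟨s, Subtype.ext hs⟩

open H92

/-- the map from the model to the function field -/
noncomputable def kap [FaithfulSMul R0 K] (j : Fin 3) : BB →+* K := AdjoinRoot.lift
  (MvPolynomial.aeval (R := ℂ) ![xx K j, ks K (some j), zz K j]).toRingHom (tt K j) (by
    rw [fB, eval₂_add, eval₂_pow, eval₂_X, eval₂_C, cB]
    have h := rel4 (K := K) j
    simp
    linear_combination h)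

variable [FaithfulSMul R0 K] (j : Fin 3)

theorem kap_X : kap K j bX = xx K j := (AdjoinRoot.lift_of _).trans (by simp)
theorem kap_Y : kap K j bY = ks K (some j) := (AdjoinRoot.lift_of _).trans (by simp)
theorem kap_Z : kap K j bZ = zz K j := (AdjoinRoot.lift_of _).trans (by simp)
theorem kap_T : kap K j bT = tt K j := AdjoinRoot.lift_root _
theorem kap_C (c : ℂ) : kap K j (algebraMap ℂ BB c) = algebraMap ℂ K c :=
  (AdjoinRoot.lift_of _).trans (by
    change (MvPolynomial.aeval (R := ℂ) ![xx K j, ks K (some j), zz K j]) (MvPolynomial.C c) = _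
    rw [MvPolynomial.aeval_C])

/-- the images of the `y_l` -/
noncomputable def mm (j l : Fin 3) : BB := if l = j then bY else if l = j + 1 then bZ * bY else bT * bY

theorem mm_rel : mm j 0 ^ 3 + mm j 1 ^ 3 + mm j 2 ^ 3 = bY ^ 3 * (1 + bZ ^ 3 + bT ^ 3) := by
  fin_cases j
  · simp [mm]; ring
  · simp [mm]; ring
  · simp [mm]; ring

/-- the map `R0 → BB` -/
noncomputable def muB : R0 →+* BB := AdjoinRoot.lift
  (MvPolynomial.aeval (R := ℂ) (mm j)).toRingHom (bX * bY) (by
    simp only [fR, eval₂_add, eval₂_pow, eval₂_X, eval₂_C, gS_def, map_add, map_pow]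
    have h := rel_BB
    have h2 := mm_rel j
    have e : ∀ i, (MvPolynomial.aeval (R := ℂ) (mm j)).toRingHom (MvPolynomial.X i) = mm j i := by
      intro i; simp
    rw [e, e, e, h2]
    linear_combination bY ^ 3 * h)

theorem muB_x : muB j xR = bX * bY := AdjoinRoot.lift_root _
theorem muB_y (l : Fin 3) : muB j (yR l) = mm j l := (AdjoinRoot.lift_of _).trans (by simp)
theorem muB_C (c : ℂ) : muB j (algebraMap ℂ R0 c) = algebraMap ℂ BB c :=
  (AdjoinRoot.lift_of _).trans (by
    change (MvPolynomial.aeval (R := ℂ) (mm j)) (MvPolynomial.C c) = _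
    rw [MvPolynomial.aeval_C])

theorem kap_muB (r : R0) : kap K j (muB j r) = algebraMap R0 K r := by
  have h : (kap K j).comp (muB j) = algebraMap R0 K := by
    refine R0_hom_ext ?_ ?_ ?_
    · rw [RingHom.comp_apply, muB_x, map_mul, kap_X, kap_Y, xx, div_mul_cancel₀ _ (ks_ne K _)]
      rfl
    · intro l
      rw [RingHom.comp_apply, muB_y]
      rcases cases3 j l with rfl | rfl | rfl
      · have : mm l l = bY := by simp [mm]
        rw [this, kap_Y]
        rfl
      · have : mm j (j + 1) = bZ * bY := by simp [mm]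
        rw [this, map_mul, kap_Z, kap_Y, zz, div_mul_cancel₀ _ (ks_ne K _)]
        rfl
      · have : mm j (j + 2) = bT * bY := by simp [mm]
        rw [this, map_mul, kap_T, kap_Y, tt, div_mul_cancel₀ _ (ks_ne K _)]
        rfl
    · intro c
      rw [RingHom.comp_apply, muB_C, kap_C, IsScalarTower.algebraMap_apply ℂ R0 K]
  rw [← h, RingHom.comp_apply]

theorem exists_muB (b : BB) : ∃ (n : ℕ) (r : R0), b * bY ^ n = muB j r := by
  have hY : muB j (yR j) = bY := by rw [muB_y]; simp [mm]
  refine BB_induction (M := fun b => ∃ (n : ℕ) (r : R0), b * bY ^ n = muB j r) ?_ ?_ ?_ ?_ ?_ ?_ b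
  · intro c
    exact ⟨0, algebraMap ℂ R0 c, by rw [muB_C, pow_zero, mul_one]⟩
  · rintro a b ⟨n, r, h⟩ ⟨m, r', h'⟩
    refine ⟨n + m, r * yR j ^ m + r' * yR j ^ n, ?_⟩
    rw [map_add, map_mul, map_mul, map_pow, map_pow, hY, ← h, ← h']
    ring
  · rintro a ⟨n, r, h⟩
    refine ⟨n + 1, r * xR, ?_⟩
    rw [map_mul, muB_x, ← h]; ring
  · rintro a ⟨n, r, h⟩
    refine ⟨n, r * yR j, ?_⟩
    rw [map_mul, hY, ← h]; ring
  · rintro a ⟨n, r, h⟩
    refine ⟨n + 1, r * yR (j + 1), ?_⟩
    rw [map_mul, muB_y, show mm j (j + 1) = bZ * bY by simp [mm], ← h]; ring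
  · rintro a ⟨n, r, h⟩
    refine ⟨n + 1, r * yR (j + 2), ?_⟩
    rw [map_mul, muB_y, show mm j (j + 2) = bT * bY by simp [mm], ← h]; ring

theorem kap_injective : Function.Injective (kap K j) := by
  haveI := isDomain_BB
  rw [injective_iff_map_eq_zero]
  intro b hb
  obtain ⟨n, r, h⟩ := exists_muB j b
  have h1 : algebraMap R0 K r = 0 := by
    rw [← kap_muB K j, ← h, map_mul, hb, zero_mul]
  rw [FaithfulSMul.algebraMap_eq_zero_iff] at h1
  rw [h1, map_zero] at h
  rcases mul_eq_zero.mp h with h2 | h2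
  · exact h2
  · exact absurd h2 (pow_ne_zero _ bY_ne_zero)

theorem kap_mem (b : BB) : kap K j b ∈ chart K (some j) := by
  refine BB_induction (M := fun b => kap K j b ∈ chart K (some j)) ?_ ?_ ?_ ?_ ?_ ?_ b
  · intro c
    rw [kap_C]
    exact const_mem_chart _ c
  · intro a b ha hb
    rw [map_add]
    exact add_mem ha hb
  · intro a ha
    rw [map_mul, kap_X]
    exact mul_mem ha (mem_xx j)
  · intro a ha
    rw [map_mul, kap_Y]
    exact mul_mem ha (mem_yy j)
  · intro a ha
    rw [map_mul, kap_Z]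
    exact mul_mem ha (mem_zz j)
  · intro a ha
    rw [map_mul, kap_T]
    exact mul_mem ha (mem_tt j)

theorem chart_le_range : chart K (some j) ≤ (kap K j).range := by
  refine chartY_le j _ ?_ ?_ ?_ ?_ ?_
  · intro c
    exact ⟨algebraMap ℂ BB c, kap_C K j c⟩
  · exact ⟨bX, kap_X K j⟩
  · exact ⟨bY, kap_Y K j⟩
  · exact ⟨bZ, kap_Z K j⟩
  · exact ⟨bT, kap_T K j⟩

theorem chart_some_equiv : Nonempty (BB ≃+* chart K (some j)) := by
  refine ⟨RingEquiv.ofBijective ((kap K j).codRestrict _ (kap_mem K j)) ⟨?_, ?_⟩⟩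
  · intro a b hab
    exact kap_injective K j (congrArg Subtype.val hab)
  · rintro ⟨z, hz⟩
    obtain ⟨s, hs⟩ := chart_le_range K j hz
    exact ⟨s, Subtype.ext hs⟩

end

theorem chartUFD (hX : ChartXStatement) : ChartUFDStatement := by
  intro K _ _ _ _ _ i
  haveI := isDomain_R0
  haveI : FaithfulSMul R0 K := (faithfulSMul_iff_algebraMap_injective R0 K).mpr
    (IsFractionRing.injective R0 K)
  rcases i with _ | j
  · obtain ⟨e⟩ := chart_none_equiv K hX
    exact ⟨isNoetherianRing_of_ringEquiv S e,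
      MulEquiv.uniqueFactorizationMonoid e.toMulEquiv inferInstance⟩
  · obtain ⟨e⟩ := chart_some_equiv K j
    haveI := isNoetherian_BB
    haveI := isDomain_BB
    exact ⟨isNoetherianRing_of_ringEquiv BB e,
      MulEquiv.uniqueFactorizationMonoid e.toMulEquiv ufd_BB⟩

end Pool.Agent.H3DE
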