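import Pool.Agent.Helper66_DE.Statements

/-!
# Elementary facts on the ring `R0`
-/

set_option autoImplicit false

open Pool.Agent.H66DE Polynomial

namespace Pool.Agent.H3DE

/-! ### Eisenstein for a cubic -/

/-- primes from ring homomorphisms -/
theorem prime_of_ker {B T : Type*} [CommRing B] [CommRing T] [IsDomain T] (θ : B →+* T) {x : B}
    (hx : x ≠ 0) (h0 : θ x = 0) (hk : ∀ r, θ r = 0 → x ∣ r) : Prime x := by
  refine ⟨hx, ?_, ?_⟩
  · intro hu
    have := hu.map θ
    rw [h0] at this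
    exact not_isUnit_zero this
  · intro a b hab
    obtain ⟨c, hc⟩ := hab
    have h1 : θ a * θ b = 0 := by rw [← map_mul, hc, map_mul, h0, zero_mul]
    rcases mul_eq_zero.mp h1 with h | h
    · exact Or.inl (hk a h)
    · exact Or.inr (hk b h)

/-- a derivation maps the square of an ideal to the ideal -/
theorem derivation_mem_of_sq {A : Type*} [CommRing A] [Algebra ℂ A] (d : Derivation ℂ A A)
    (P : Ideal A) {f : A} (hf : f ∈ P ^ 2) : d f ∈ P := by
  rw [sq] at hf
  refine Submodule.mul_induction_on hf ?_ ?_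
  · intro a ha b hb
    rw [Derivation.leibniz]
    exact P.add_mem (P.mul_mem_right _ ha) (P.mul_mem_right _ hb)
  · intro a b ha hb
    rw [map_add]
    exact P.add_mem ha hb

/-- the ring of polynomials in two variables -/
abbrev D2 := MvPolynomial (Fin 2) ℂ

/-- `1 + Z³ + T³` as a polynomial in one variable over `ℂ[T]`... general form of the cubics:
`T³ + c` is irreducible if `c` vanishes under a homomorphism to a domain but some derivative of
`c` does not -/
theorem irreducible_cubic {A T : Type*} [CommRing A] [IsDomain A] [Algebra ℂ A] [CommRing T]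
    [IsDomain T] (ψ : A →+* T) (d : Derivation ℂ A A) (c : A) (h0 : ψ c = 0) (h1 : ψ (d c) ≠ 0) :
    Irreducible ((X : A[X]) ^ 3 + C c) := by
  have hm : ((X : A[X]) ^ 3 + C c).Monic := monic_X_pow_add_C c (by norm_num)
  have hdeg : ((X : A[X]) ^ 3 + C c).degree = 3 := degree_X_pow_add_C (by norm_num) c
  refine irreducible_of_eisenstein_criterion (P := RingHom.ker ψ) (RingHom.ker_isPrime ψ) ?_ ?_ ?_ ?_
    hm.isPrimitive
  · rw [hm.leadingCoeff, RingHom.mem_ker, map_one]
    exact one_ne_zero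
  · intro n hn
    rw [hdeg] at hn
    have hn' : n < 3 := by exact_mod_cast hn
    rw [coeff_add, coeff_X_pow, if_neg (by omega), zero_add, coeff_C]
    split_ifs
    · exact h0
    · exact zero_mem _
  · rw [hdeg]; norm_num
  · intro h
    have h2 : ((X : A[X]) ^ 3 + C c).coeff 0 = c := by simp
    rw [h2] at h
    exact h1 (derivation_mem_of_sq d _ h)

theorem gS_irreducible : Irreducible gS := by
  let e := MvPolynomial.finSuccEquiv ℂ 2
  have h1 : e gS = (X : D2[X]) ^ 3 + C (MvPolynomial.X 0 ^ 3 + MvPolynomial.X 1 ^ 3) := by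
    unfold gS
    simp only [e, map_add, map_pow]
    rw [MvPolynomial.finSuccEquiv_X_zero]
    have h2 : MvPolynomial.finSuccEquiv ℂ 2 (MvPolynomial.X 1) = C (MvPolynomial.X 0) :=
      MvPolynomial.finSuccEquiv_X_succ (j := 0)
    have h3 : MvPolynomial.finSuccEquiv ℂ 2 (MvPolynomial.X 2) = C (MvPolynomial.X 1) :=
      MvPolynomial.finSuccEquiv_X_succ (j := 1)
    rw [h2, h3]
    ring
  rw [← MulEquiv.irreducible_iff e.toMulEquiv]
  change Irreducible (e gS)
  rw [h1]
  let ψ : D2 →+* ℂ[X] := (MvPolynomial.aeval (R := ℂ) ![(X : ℂ[X]), -X]).toRingHom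
  refine irreducible_cubic ψ (MvPolynomial.pderiv 0) _ ?_ ?_
  · simp [ψ]
    ring
  · simp [ψ, MvPolynomial.pderiv_X]

theorem gS_prime : Prime gS := gS_irreducible.prime

theorem fR_monic : fR.Monic := monic_X_pow_add_C gS (by norm_num)

theorem fR_irreducible : Irreducible fR := by
  have hm := fR_monic
  have hdeg : fR.degree = 4 := degree_X_pow_add_C (by norm_num) gS
  have hP : (Ideal.span {gS}).IsPrime := (Ideal.span_singleton_prime gS_prime.ne_zero).mpr gS_prime
  refine irreducible_of_eisenstein_criterion hP ?_ ?_ ?_ ?_ hm.isPrimitive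
  · rw [hm.leadingCoeff]
    exact fun h => hP.ne_top ((Ideal.eq_top_iff_one _).mpr h)
  · intro n hn
    rw [hdeg] at hn
    have hn' : n < 4 := by exact_mod_cast hn
    rw [coeff_add, coeff_X_pow, if_neg (by omega), zero_add, coeff_C]
    split_ifs
    · exact Ideal.mem_span_singleton_self _
    · exact zero_mem _
  · rw [hdeg]; norm_num
  · intro h
    have h2 : fR.coeff 0 = gS := by simp
    rw [h2, Ideal.span_singleton_pow, Ideal.mem_span_singleton] at h
    obtain ⟨c, hc⟩ := h
    have h3 : gS * (1 - gS * c) = 0 := by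
      have : gS * (1 - gS * c) = gS - gS ^ 2 * c := by ring
      rw [this, ← hc, sub_self]
    rcases mul_eq_zero.mp h3 with h4 | h4
    · exact gS_prime.ne_zero h4
    · exact gS_prime.not_isUnit (isUnit_iff_exists_inv.mpr ⟨c, (sub_eq_zero.mp h4).symm⟩)

theorem isDomain_R0 : IsDomain R0 := AdjoinRoot.isDomain_of_prime fR_irreducible.prime

theorem isNoetherian_R0 : IsNoetherianRing R0 :=
  isNoetherianRing_of_surjective _ _ (AdjoinRoot.mk fR) AdjoinRoot.mk_surjective

theorem rel_R0 : xR ^ 4 + yR 0 ^ 3 + yR 1 ^ 3 + yR 2 ^ 3 = 0 := by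
  have h1 : AdjoinRoot.mk fR fR = 0 := AdjoinRoot.mk_self
  have h2 : AdjoinRoot.mk fR fR = xR ^ 4 + yR 0 ^ 3 + yR 1 ^ 3 + yR 2 ^ 3 := by
    simp only [fR, gS, map_add, map_pow, AdjoinRoot.mk_X]
    rw [← add_assoc, ← add_assoc]
    rfl
  rw [← h2, h1]

theorem xR_ne_zero : xR ≠ 0 := by
  intro h
  have h1 : AdjoinRoot.mk fR X = 0 := by rw [AdjoinRoot.mk_X]; exact h
  rw [AdjoinRoot.mk_eq_zero] at h1
  have h2 := Polynomial.degree_le_of_dvd h1 X_ne_zero
  rw [degree_X, show fR.degree = 4 from degree_X_pow_add_C (by norm_num) gS] at h2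
  norm_num at h2

theorem xR_prime : Prime xR := by
  have hP : (Ideal.span {gS}).IsPrime := (Ideal.span_singleton_prime gS_prime.ne_zero).mpr gS_prime
  let θ : R0 →+* S ⧸ Ideal.span {gS} := AdjoinRoot.lift (Ideal.Quotient.mk _) 0 (by
    simp only [fR, eval₂_add, eval₂_pow, eval₂_X, eval₂_C]
    rw [zero_pow (by norm_num), zero_add]
    exact Ideal.Quotient.eq_zero_iff_mem.mpr (Ideal.mem_span_singleton_self _))
  refine prime_of_ker θ xR_ne_zero (AdjoinRoot.lift_root _) ?_
  intro r hr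
  obtain ⟨q, rfl⟩ := AdjoinRoot.mk_surjective r
  have h1 : θ (AdjoinRoot.mk fR q) = Ideal.Quotient.mk _ (q.coeff 0) := by
    rw [AdjoinRoot.lift_mk, eval₂_eq_sum_range]
    rw [Finset.sum_range_succ', Finset.sum_eq_zero]
    · simp
    · intro i _
      rw [zero_pow (by omega), mul_zero]
  rw [h1, Ideal.Quotient.eq_zero_iff_mem, Ideal.mem_span_singleton] at hr
  obtain ⟨c, hc⟩ := hr
  have h2 := divX_mul_X_add q
  have h3 : AdjoinRoot.mk fR (C gS) = - xR ^ 4 := by
    have h4 : AdjoinRoot.mk fR fR = 0 := AdjoinRoot.mk_self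
    rw [map_add, map_pow, AdjoinRoot.mk_X] at h4
    exact eq_neg_of_add_eq_zero_right h4
  rw [← h2, hc, map_add, map_mul, C_mul, map_mul, h3, AdjoinRoot.mk_X]
  exact dvd_add (dvd_mul_left _ _) (dvd_mul_of_dvd_left (dvd_neg.mpr (dvd_pow_self _ (by norm_num))) _)

/-! ### Factoriality -/

/-- the localization `ℂ[a,b,c][1/(a³+b³+c³)]` -/
abbrev Lr := Localization.Away (-gS : S)

/-- `y_j ↦ X_j x`, `x = -(a³+b³+c³)` -/
noncomputable def iS : S →+* Lr :=
  (algebraMap S Lr).comp (MvPolynomial.aeval (R := ℂ)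
    (fun j : Fin 3 => (MvPolynomial.X j : S) * (-gS))).toRingHom

theorem iS_X (j : Fin 3) : iS (MvPolynomial.X j) =
    algebraMap S Lr (MvPolynomial.X j) * algebraMap S Lr (-gS) := by
  simp [iS]

theorem iS_C (c : ℂ) : iS (MvPolynomial.C c) = algebraMap S Lr (MvPolynomial.C c) := by
  simp [iS, MvPolynomial.algebraMap_eq]

theorem gS_def : gS = MvPolynomial.X 0 ^ 3 + MvPolynomial.X 1 ^ 3 + MvPolynomial.X 2 ^ 3 := rfl

theorem iS_gS : iS gS = algebraMap S Lr (-gS) ^ 3 * algebraMap S Lr gS := by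
  have h1 : iS gS = iS (MvPolynomial.X 0) ^ 3 + iS (MvPolynomial.X 1) ^ 3 +
      iS (MvPolynomial.X 2) ^ 3 := by
    rw [← map_pow, ← map_pow, ← map_pow, ← map_add, ← map_add]
    rfl
  have h2 : algebraMap S Lr gS = algebraMap S Lr (MvPolynomial.X 0) ^ 3 +
      algebraMap S Lr (MvPolynomial.X 1) ^ 3 + algebraMap S Lr (MvPolynomial.X 2) ^ 3 := by
    rw [← map_pow, ← map_pow, ← map_pow, ← map_add, ← map_add]
    rfl
  rw [h1, iS_X, iS_X, iS_X, h2]
  ring

/-- the map `R0 → ℂ[a,b,c][1/(a³+b³+c³)]` -/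
noncomputable def chi : R0 →+* Lr := AdjoinRoot.lift iS (algebraMap S Lr (-gS)) (by
  simp only [fR, eval₂_add, eval₂_pow, eval₂_X, eval₂_C]
  rw [iS_gS]
  simp only [map_neg]
  ring)

theorem chi_xR : chi xR = algebraMap S Lr (-gS) := AdjoinRoot.lift_root _

theorem chi_yR (j : Fin 3) : chi (yR j) =
    algebraMap S Lr (MvPolynomial.X j) * algebraMap S Lr (-gS) := by
  rw [← iS_X]
  exact AdjoinRoot.lift_of _

theorem chi_C (c : ℂ) : chi (algebraMap ℂ R0 c) = algebraMap S Lr (MvPolynomial.C c) := by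
  rw [← iS_C]
  exact AdjoinRoot.lift_of _

/-- ring homomorphisms from `R0` are determined on generators -/
theorem R0_hom_ext {T : Type*} [CommRing T] {f g : R0 →+* T} (hx : f xR = g xR)
    (hy : ∀ j, f (yR j) = g (yR j)) (hc : ∀ c : ℂ, f (algebraMap ℂ R0 c) = g (algebraMap ℂ R0 c)) :
    f = g := by
  refine RingHom.ext fun r => ?_
  obtain ⟨q, rfl⟩ := AdjoinRoot.mk_surjective r
  have h1 : f.comp (AdjoinRoot.mk fR) = g.comp (AdjoinRoot.mk fR) := by
    refine Polynomial.ringHom_ext' ?_ ?_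
    · refine MvPolynomial.ringHom_ext' ?_ ?_
      · ext c
        exact hc c
      · intro j
        exact hy j
    · simp only [RingHom.comp_apply, AdjoinRoot.mk_X]
      exact hx
  exact congrArg (fun φ : S[X] →+* T => φ q) h1

/-- the localization of `R0` at `x` -/
abbrev Lx := Localization.Away (xR : R0)

theorem algebraMap_Lx_injective : Function.Injective (algebraMap R0 Lx) := by
  haveI := isDomain_R0
  exact IsLocalization.injective Lx (powers_le_nonZeroDivisors_of_noZeroDivisors xR_ne_zero)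

/-- `X_j ↦ y_j / x` -/
noncomputable def psi : S →+* Lx := (MvPolynomial.aeval (R := ℂ)
    (fun j : Fin 3 => algebraMap R0 Lx (yR j) * IsLocalization.Away.invSelf xR)).toRingHom

theorem mul_invSelf_x : algebraMap R0 Lx xR * IsLocalization.Away.invSelf (S := Lx) xR = 1 :=
  IsLocalization.Away.mul_invSelf xR

theorem psi_X (j : Fin 3) : psi (MvPolynomial.X j) =
    algebraMap R0 Lx (yR j) * IsLocalization.Away.invSelf xR := by simp [psi]

theorem psi_C (c : ℂ) : psi (MvPolynomial.C c) = algebraMap R0 Lx (algebraMap ℂ R0 c) := by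
  simp only [psi, AlgHom.toRingHom_eq_coe, RingHom.coe_coe, MvPolynomial.aeval_C]
  rfl

theorem psi_gS : psi (-gS) = algebraMap R0 Lx xR := by
  have h1 := congrArg (algebraMap R0 Lx) rel_R0
  simp only [map_add, map_pow, map_zero] at h1
  have h2 := mul_invSelf_x
  set u := IsLocalization.Away.invSelf (S := Lx) xR with hu
  set x := algebraMap R0 Lx xR with hx
  have h3 : psi (-gS) = -(psi (MvPolynomial.X 0) ^ 3 + psi (MvPolynomial.X 1) ^ 3 +
      psi (MvPolynomial.X 2) ^ 3) := by
    rw [gS_def]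
    simp only [map_neg, map_add, map_pow]
  rw [h3, psi_X, psi_X, psi_X]
  have h4 : algebraMap R0 Lx (yR 0) ^ 3 + algebraMap R0 Lx (yR 1) ^ 3 +
      algebraMap R0 Lx (yR 2) ^ 3 = - x ^ 4 := by
    linear_combination h1
  calc -((algebraMap R0 Lx (yR 0) * u) ^ 3 + (algebraMap R0 Lx (yR 1) * u) ^ 3 +
        (algebraMap R0 Lx (yR 2) * u) ^ 3)
      = -((algebraMap R0 Lx (yR 0) ^ 3 + algebraMap R0 Lx (yR 1) ^ 3 +
        algebraMap R0 Lx (yR 2) ^ 3) * u ^ 3) := by ring
    _ = x * (x * u) ^ 3 := by rw [h4]; ring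
    _ = x := by rw [h2]; ring

/-- the inverse direction -/
noncomputable def rho : Lr →+* Lx :=
  IsLocalization.Away.lift (-gS : S) (g := psi) (by
    rw [psi_gS]
    exact IsLocalization.Away.algebraMap_isUnit xR)

theorem rho_algebraMap (s : S) : rho (algebraMap S Lr s) = psi s :=
  IsLocalization.Away.lift_eq _ _ _

theorem chi_injective : Function.Injective chi := by
  have h1 : rho.comp chi = algebraMap R0 Lx := by
    refine R0_hom_ext ?_ ?_ ?_
    · rw [RingHom.comp_apply, chi_xR, rho_algebraMap, psi_gS]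
    · intro j
      rw [RingHom.comp_apply, chi_yR, map_mul, rho_algebraMap, rho_algebraMap, psi_gS, psi_X,
        mul_assoc, mul_comm (IsLocalization.Away.invSelf xR), mul_invSelf_x, mul_one]
    · intro c
      rw [RingHom.comp_apply, chi_C, rho_algebraMap, psi_C]
  have h2 := algebraMap_Lx_injective
  rw [← h1, RingHom.coe_comp] at h2
  exact Function.Injective.of_comp h2

theorem exists_chi (b : S) : ∃ (m : ℕ) (r : R0),
    algebraMap S Lr b * algebraMap S Lr (-gS) ^ m = chi r := by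
  induction b using MvPolynomial.induction_on with
  | C c => exact ⟨0, algebraMap ℂ R0 c, by rw [chi_C, pow_zero, mul_one]⟩
  | add p q hp hq =>
    obtain ⟨m, r, h⟩ := hp
    obtain ⟨n, r', h'⟩ := hq
    refine ⟨m + n, r * xR ^ n + r' * xR ^ m, ?_⟩
    rw [map_add, map_add, map_mul, map_mul, map_pow, map_pow, chi_xR, ← h, ← h']
    ring
  | mul_X p j hp =>
    obtain ⟨m, r, h⟩ := hp
    refine ⟨m + 1, r * yR j, ?_⟩
    rw [map_mul, map_mul, chi_yR, ← h]
    ring

theorem isLocalization_chi : letI := chi.toAlgebra; IsLocalization.Away xR Lr := by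
  letI := chi.toAlgebra
  refine (isLocalization_iff _ _).mpr ⟨?_, ?_, ?_⟩
  · rintro ⟨_, n, rfl⟩
    change IsUnit (chi (xR ^ n))
    rw [map_pow, chi_xR]
    exact (IsLocalization.Away.algebraMap_isUnit (-gS : S)).pow n
  · intro z
    obtain ⟨⟨b, ⟨_, n, rfl⟩⟩, hb⟩ := IsLocalization.surj (Submonoid.powers (-gS : S)) z
    obtain ⟨m, r, h⟩ := exists_chi b
    refine ⟨⟨r, ⟨xR ^ (n + m), n + m, rfl⟩⟩, ?_⟩
    change z * chi (xR ^ (n + m)) = chi r
    simp only [map_pow] at hb
    rw [map_pow, chi_xR, ← h, ← hb]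
    ring
  · intro a b hab
    exact ⟨1, by rw [chi_injective hab]⟩

theorem rBasic : RBasicStatement := by
  haveI := isDomain_R0
  haveI := isNoetherian_R0
  refine ⟨isDomain_R0, ?_, isNoetherian_R0, xR_prime⟩
  letI := chi.toAlgebra
  haveI : IsLocalization.Away xR Lr := isLocalization_chi
  rw [UniqueFactorizationMonoid.iff_of_isLocalizationAway_of_prime xR_prime Lr]
  infer_instance

end Pool.Agent.H3DE
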